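import Mathlib

open Set

namespace H68.KT

section coherent

variable {I : Type} [LinearOrder I]


set_option linter.unusedSectionVars false

open scoped Classical in
/-- index of `ξ` in the enumeration `c β` -/
noncomputable def idx (c : I → ℕ → I) (β ξ : I) : ℕ := sInf {n | ξ ≤ c β n}

open scoped Classical in
/-- a coherent finite-to-one function -/
noncomputable def rho [WellFoundedLT I] (c : I → ℕ → I) (β ξ : I) : ℕ :=
  if h : ξ < c β (idx c β ξ) ∧ c β (idx c β ξ) < β then
    max (idx c β ξ) (rho c (c β (idx c β ξ)) ξ)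
  else idx c β ξ
termination_by WellFounded.wrap (wellFounded_lt (α := I)) β
decreasing_by exact h.2

variable [WellFoundedLT I]

/-- `c β` enumerates the predecessors of `β`. -/
def Enum (c : I → ℕ → I) : Prop :=
  ∀ β : I, (∃ ξ, ξ < β) → (∀ n, c β n < β) ∧ ∀ ξ < β, ∃ n, c β n = ξ

variable {c : I → ℕ → I}

theorem Enum.idx_spec (hc : Enum c) {β ξ : I} (h : ξ < β) : ξ ≤ c β (idx c β ξ) := by
  have h1 : (sInf {n | ξ ≤ c β n}) ∈ {n | ξ ≤ c β n} := by
    apply Nat.sInf_mem
    obtain ⟨n, hn⟩ := (hc β ⟨ξ, h⟩).2 ξ h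
    exact ⟨n, hn.ge⟩
  exact h1

theorem idx_le {β ξ : I} {n : ℕ} (h : ξ ≤ c β n) : idx c β ξ ≤ n := Nat.sInf_le h

theorem Enum.rho_of_lt (hc : Enum c) {β ξ : I} (h : ξ < β) (h1 : ξ < c β (idx c β ξ)) :
    rho c β ξ = max (idx c β ξ) (rho c (c β (idx c β ξ)) ξ) := by
  rw [rho, dif_pos ⟨h1, (hc β ⟨ξ, h⟩).1 _⟩]

theorem Enum.idx_le_rho (hc : Enum c) (β ξ : I) : idx c β ξ ≤ rho c β ξ := by
  rw [rho]
  split_ifs
  · exact le_max_left _ _
  · exact le_rfl

theorem Enum.finite_rho (hc : Enum c) (β : I) (m : ℕ) : {ξ | ξ < β ∧ rho c β ξ ≤ m}.Finite := by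
  induction β using WellFoundedLT.induction with
  | _ β ih =>
    by_cases hβ : ∃ ξ, ξ < β
    · have h1 : {ξ | ξ < β ∧ rho c β ξ ≤ m} ⊆
          ⋃ n ∈ Finset.range (m + 1), (insert (c β n) {ξ | ξ < c β n ∧ rho c (c β n) ξ ≤ m}) := by
        rintro ξ ⟨h, h2⟩
        have h3 := hc.idx_spec h
        have h4 : idx c β ξ ≤ m := (hc.idx_le_rho β ξ).trans h2
        simp only [mem_iUnion, Finset.mem_range]
        refine ⟨idx c β ξ, by omega, ?_⟩
        rcases h3.lt_or_eq with h5 | h5
        · right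
          refine ⟨h5, ?_⟩
          rw [hc.rho_of_lt h h5] at h2
          exact (le_max_right _ _).trans h2
        · left; exact h5
      refine Set.Finite.subset ?_ h1
      refine Set.Finite.biUnion (Finset.finite_toSet _) ?_
      intro n _
      exact (ih (c β n) ((hc β hβ).1 n)).insert _
    · refine (Set.finite_empty).subset ?_
      rintro ξ ⟨h, _⟩
      exact hβ ⟨ξ, h⟩

theorem Enum.coherent (hc : Enum c) (β : I) :
    ∀ α < β, {ξ | ξ < α ∧ rho c α ξ ≠ rho c β ξ}.Finite := by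
  induction β using WellFoundedLT.induction with
  | _ β ih =>
    intro α hα
    have hβ : ∃ ξ, ξ < β := ⟨α, hα⟩
    set n₀ := idx c β α with hn₀
    have key : ∀ n, {ξ | ξ < α ∧ idx c β ξ = n ∧ rho c α ξ ≠ rho c β ξ}.Finite := by
      intro n
      have hδ : c β n < β := (hc β hβ).1 n
      have hco : {ξ | ξ < α ∧ ξ < c β n ∧ rho c α ξ ≠ rho c (c β n) ξ}.Finite := by
        rcases lt_trichotomy α (c β n) with h | h | h
        · refine (ih (c β n) hδ α h).subset ?_
          rintro ξ ⟨h1, _, h3⟩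
          exact ⟨h1, h3⟩
        · refine Set.finite_empty.subset ?_
          rintro ξ ⟨_, _, h3⟩
          rw [← h] at h3
          exact h3 rfl
        · refine (ih α hα (c β n) h).subset ?_
          rintro ξ ⟨_, h2, h3⟩
          exact ⟨h2, fun h4 => h3 h4.symm⟩
      refine ((hco.union (hc.finite_rho α n)).union (Set.finite_singleton (c β n))).subset ?_
      rintro ξ ⟨h1, h2, h3⟩
      have h4 := hc.idx_spec (lt_trans h1 hα)
      rw [h2] at h4
      rcases h4.lt_or_eq with h5 | h5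
      · left
        by_cases h6 : rho c α ξ ≤ n
        · right; exact ⟨h1, h6⟩
        · left
          refine ⟨h1, h5, ?_⟩
          intro h7
          apply h3
          rw [hc.rho_of_lt (lt_trans h1 hα) (by rw [h2]; exact h5), h2, ← h7]
          rw [max_eq_right (by omega)]
      · right; exact h5
    refine (Set.Finite.biUnion (Finset.finite_toSet (Finset.range (n₀ + 1)))
      (fun n _ => key n)).subset ?_
    rintro ξ ⟨h1, h2⟩
    simp only [mem_iUnion, Finset.coe_range, mem_Iio]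
    refine ⟨idx c β ξ, ?_, h1, rfl, h2⟩
    have : idx c β ξ ≤ n₀ := by
      apply idx_le
      exact h1.le.trans (hc.idx_spec hα)
    omega

theorem exists_enum (hI : ∀ i : I, (Iio i).Countable) : ∃ c : I → ℕ → I, Enum c := by
  have h : ∀ β : I, ∃ f : ℕ → I, (∃ ξ, ξ < β) → (∀ n, f n < β) ∧ ∀ ξ < β, ∃ n, f n = ξ := by
    intro β
    by_cases hβ : ∃ ξ, ξ < β
    · obtain ⟨f, hf⟩ := (hI β).exists_eq_range hβ
      refine ⟨f, fun _ => ⟨fun n => ?_, fun ξ hξ => ?_⟩⟩
      · have : f n ∈ Iio β := by rw [hf]; exact ⟨n, rfl⟩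
        exact this
      · have : ξ ∈ range f := by rw [← hf]; exact hξ
        exact this
    · exact ⟨fun _ => β, fun h => absurd h hβ⟩
  choose c hc using h
  exact ⟨c, hc⟩

/-- the restriction of `rho c γ` to `Iic i`. -/
noncomputable def res (c : I → ℕ → I) (i γ : I) : Iic i → ℕ := fun ξ => rho c γ ξ.1

theorem Enum.countable_res (hc : Enum c) (hI : ∀ i : I, (Iio i).Countable) (i : I) :
    {w : Iic i → ℕ | ∃ γ, i < γ ∧ res c i γ = w}.Countable := by
  classical
  by_cases hne : ∃ γ, i < γ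
  · obtain ⟨γ₀, hγ₀⟩ := hne
    have hcI : Countable (Iic i) := by
      have : (Iic i : Set I) ⊆ Iio γ₀ := fun x hx => lt_of_le_of_lt hx hγ₀
      exact ((hI γ₀).mono this).to_subtype
    have hfin : ∀ γ, i < γ → {ξ : Iic i | res c i γ ξ ≠ res c i γ₀ ξ}.Finite := by
      intro γ hγ
      have hf : {ξ | ξ ≤ i ∧ rho c γ ξ ≠ rho c γ₀ ξ}.Finite := by
        rcases lt_trichotomy γ γ₀ with h | h | h
        · refine (hc.coherent γ₀ γ h).subset ?_
          rintro ξ ⟨h1, h2⟩
          exact ⟨lt_of_le_of_lt h1 hγ, h2⟩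
        · subst h
          refine Set.finite_empty.subset ?_
          rintro ξ ⟨h1, h2⟩
          exact h2 rfl
        · refine (hc.coherent γ γ₀ h).subset ?_
          rintro ξ ⟨h1, h2⟩
          exact ⟨lt_of_le_of_lt h1 hγ₀, fun h3 => h2 h3.symm⟩
      refine Set.Finite.of_finite_image (f := Subtype.val) ?_ Subtype.val_injective.injOn
      refine hf.subset ?_
      rintro _ ⟨ξ, hξ, rfl⟩
      exact ⟨ξ.2, hξ⟩
    have : {w : Iic i → ℕ | ∃ γ, i < γ ∧ res c i γ = w} ⊆
        range (fun F : Iic i →₀ ℕ => fun ξ => if F ξ = 0 then res c i γ₀ ξ else F ξ - 1) := by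
      rintro w ⟨γ, hγ, rfl⟩
      refine ⟨Finsupp.ofSupportFinite
        (fun ξ => if res c i γ ξ = res c i γ₀ ξ then 0 else res c i γ ξ + 1) ?_, ?_⟩
      · refine (hfin γ hγ).subset ?_
        intro ξ hξ
        simp only [Function.mem_support] at hξ
        intro h
        apply hξ
        simp [h]
      · funext ξ
        simp only [Finsupp.ofSupportFinite_coe]
        by_cases h : res c i γ ξ = res c i γ₀ ξ
        · simp [h]
        · simp [h]
    exact (countable_range _).mono this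
  · refine Set.countable_empty.mono ?_
    rintro w ⟨γ, hγ, _⟩
    exact hne ⟨γ, hγ⟩

/-- there is no uncountable thread. -/
theorem Enum.no_thread (hc : Enum c) (hun : ¬ (univ : Set I).Countable)
    (hbd : ∀ s : Set I, s.Countable → ∃ b, ∀ a ∈ s, a < b)
    (i₀ : I) (γ : I → I) (hγ : ∀ i, i₀ ≤ i → i < γ i)
    (hth : ∀ i j, i₀ ≤ i → i ≤ j → ∀ ξ ≤ i, rho c (γ i) ξ = rho c (γ j) ξ) : False := by
  classical
  set h : I → ℕ := fun ξ => rho c (γ (max ξ i₀)) ξ with hh
  have hval : ∀ i, i₀ ≤ i → ∀ ξ ≤ i, h ξ = rho c (γ i) ξ := by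
    intro i hi ξ hξ
    exact hth _ _ (le_max_right _ _) (max_le hξ hi) ξ (le_max_left _ _)
  have hex : ∃ n, ¬ {ξ | h ξ = n}.Countable := by
    by_contra hcon
    push Not at hcon
    apply hun
    have : (univ : Set I) = ⋃ n, {ξ | h ξ = n} := by
      ext ξ; simp
    rw [this]
    exact countable_iUnion hcon
  obtain ⟨n, hn⟩ := hex
  have hinf : {ξ | h ξ = n}.Infinite := fun hf => hn hf.countable
  have hinf' : {ξ | h ξ = n}.Infinite := hinf
  set em := Set.Infinite.natEmbedding _ hinf' with hem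
  obtain ⟨b, hb⟩ := hbd (range fun k => (em k).1) (countable_range _)
  have hfin := hc.finite_rho (γ (max b i₀)) n
  have hinj : Function.Injective fun k => (em k).1 :=
    Subtype.val_injective.comp em.injective
  apply Set.infinite_range_of_injective hinj
  refine hfin.subset ?_
  rintro _ ⟨k, rfl⟩
  have h1 : (em k).1 ≤ max b i₀ := (hb _ ⟨k, rfl⟩).le.trans (le_max_left _ _)
  refine ⟨lt_of_le_of_lt h1 (hγ _ (le_max_right _ _)), ?_⟩
  rw [← hval _ (le_max_right _ _) _ h1]
  exact (em k).2.le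

end coherent

end H68.KT
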