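import Pool.Agent.H68.KT.Sys
import Pool.Agent.H68.KT.Coh

open Set Cardinal Ordinal

namespace H68.KT

/-- good pairs -/
structure Good (S : W1 → Set (Set W1)) (X C : Set W1) : Prop where
  club : IsClub C
  bot : ∀ i, (∀ j, i ≤ j) → i ∈ C
  diam : ∀ i ∈ C, X ∩ Iio i ∈ S i ∧ C ∩ Iio i ∈ S i

theorem exists_least {P : W1 → Prop} (h : ∃ i, P i) : ∃ m, P m ∧ ∀ j, P j → m ≤ j := by
  have hne : {i | P i}.Nonempty := h
  refine ⟨WellFounded.min (wellFounded_lt (α := W1)) _ hne,
    WellFounded.min_mem (wellFounded_lt (α := W1)) _ hne, ?_⟩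
  intro j hj
  exact not_lt.1 (WellFounded.not_lt_min (wellFounded_lt (α := W1)) _ hj)

instance : Nonempty W1 := by
  obtain ⟨b, _⟩ := exists_bound (s := ∅) countable_empty
  exact ⟨b⟩

theorem exists_good (hD : DiamondPlus) : ∃ S : W1 → Set (Set W1), (∀ i, (S i).Countable) ∧
    ∀ X, ∃ C, Good S X C := by
  obtain ⟨S, hS, -, hS2⟩ := hD
  obtain ⟨b0, -, hb0⟩ := exists_least (P := fun _ : W1 => True) ⟨Classical.arbitrary _, trivial⟩
  have hb : ∀ j, b0 ≤ j := fun j => hb0 j trivial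
  refine ⟨fun i => (S i ∪ (insert b0 '' S i)) ∪ {∅}, ?_, ?_⟩
  · intro i
    exact ((hS i).union ((hS i).image _)).union (countable_singleton _)
  · intro X
    obtain ⟨C, hC, hCS⟩ := hS2 X
    refine ⟨insert b0 C, ⟨?_, ?_⟩, ?_, ?_⟩
    · intro i
      obtain ⟨j, hj, hij⟩ := hC.unbounded i
      exact ⟨j, mem_insert_of_mem _ hj, hij⟩
    · intro i hi h
      refine mem_insert_of_mem _ (hC.closed i hi ?_)
      intro j hj
      obtain ⟨k, hk, hjk, hki⟩ := h j hj
      refine ⟨k, ?_, hjk, hki⟩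
      rcases hk with rfl | hk
      · exact absurd hjk (not_lt.2 (hb j))
      · exact hk
    · intro i hi
      have : i = b0 := le_antisymm (hi b0) (hb i)
      rw [this]; exact mem_insert _ _
    · intro i hi
      have hemp : ∀ Y : Set W1, Y ∩ Iio b0 = ∅ := by
        intro Y
        ext x
        simp only [mem_inter_iff, mem_Iio, mem_empty_iff_false, iff_false, not_and]
        intro _ hx
        exact absurd hx (not_lt.2 (hb x))
      by_cases hib : i = b0
      · subst hib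
        rw [hemp, hemp]
        exact ⟨Or.inr rfl, Or.inr rfl⟩
      · have hi' : i ∈ C := by
          rcases hi with h | h
          · exact absurd h hib
          · exact h
        have hlt : b0 < i := lt_of_le_of_ne (hb i) (fun h => hib h.symm)
        refine ⟨Or.inl (Or.inl (hCS i hi').1), Or.inl (Or.inr ⟨C ∩ Iio i, (hCS i hi').2, ?_⟩)⟩
        rw [insert_inter_of_mem (show b0 ∈ Iio i from hlt)]

variable {S : W1 → Set (Set W1)}

/-- the type of good pairs -/
def GG (S : W1 → Set (Set W1)) : Type := {p : Set W1 × Set W1 // Good S p.1 p.2}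

/-- the set -/
def GG.X (g : GG S) : Set W1 := g.1.1
/-- the club -/
def GG.C (g : GG S) : Set W1 := g.1.2

theorem GG.good (g : GG S) : Good S g.X g.C := g.2

theorem GG.exists_nx (g : GG S) (i : W1) :
    ∃ m, (m ∈ g.C ∧ i < m) ∧ ∀ j, (j ∈ g.C ∧ i < j) → m ≤ j := by
  apply exists_least (P := fun m => m ∈ g.C ∧ i < m)
  exact g.good.club.unbounded i

/-- next element of the club -/
noncomputable def GG.nx (g : GG S) (i : W1) : W1 := (g.exists_nx i).choose

theorem GG.nx_mem (g : GG S) (i : W1) : g.nx i ∈ g.C := (g.exists_nx i).choose_spec.1.1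
theorem GG.lt_nx (g : GG S) (i : W1) : i < g.nx i := (g.exists_nx i).choose_spec.1.2
theorem GG.nx_le (g : GG S) {i j : W1} (h : j ∈ g.C) (h2 : i < j) : g.nx i ≤ j :=
  (g.exists_nx i).choose_spec.2 j ⟨h, h2⟩

theorem GG.nx_eq (g : GG S) {i m : W1} (h : m ∈ g.C) (h2 : i < m)
    (h3 : ∀ j ∈ g.C, i < j → m ≤ j) : g.nx i = m :=
  le_antisymm (g.nx_le h h2) (h3 _ (g.nx_mem i) (g.lt_nx i))

theorem GG.exists_mx (g : GG S) (i : W1) :
    ∃ m, (m ∈ g.C ∧ m ≤ i) ∧ ∀ j ∈ g.C, j ≤ i → j ≤ m := by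
  obtain ⟨m, hm, hm2⟩ := exists_least (P := fun u => ∀ k ∈ g.C, k ≤ i → k ≤ u)
    ⟨i, fun k _ hk => hk⟩
  refine ⟨m, ⟨?_, hm2 i (fun k _ hk => hk)⟩, hm⟩
  by_contra hmC
  have key : ∀ j < m, ∃ k ∈ g.C, j < k ∧ k < m := by
    intro j hj
    have : ¬ ∀ k ∈ g.C, k ≤ i → k ≤ j := fun h => absurd (hm2 j h) (not_le.2 hj)
    push Not at this
    obtain ⟨k, hk, hki, hjk⟩ := this
    refine ⟨k, hk, hjk, lt_of_le_of_ne (hm k hk hki) ?_⟩
    rintro rfl
    exact hmC hk
  by_cases hex : ∃ j, j < m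
  · exact hmC (g.good.club.closed m hex key)
  · push Not at hex
    exact hmC (g.good.bot m hex)

/-- max of the club below -/
noncomputable def GG.mx (g : GG S) (i : W1) : W1 := (g.exists_mx i).choose
theorem GG.mx_mem (g : GG S) (i : W1) : g.mx i ∈ g.C := (g.exists_mx i).choose_spec.1.1
theorem GG.mx_le (g : GG S) (i : W1) : g.mx i ≤ i := (g.exists_mx i).choose_spec.1.2
theorem GG.le_mx (g : GG S) {i j : W1} (h : j ∈ g.C) (h2 : j ≤ i) : j ≤ g.mx i :=
  (g.exists_mx i).choose_spec.2 j h h2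

/-- the equivalence relations -/
def RR (c : W1 → ℕ → W1) (i : W1) (g g' : GG S) : Prop :=
  (∀ k ≤ i, k ∈ g.C ↔ k ∈ g'.C) ∧ (∀ k ∈ g.C, k ≤ i → ∀ x < k, x ∈ g.X ↔ x ∈ g'.X) ∧
    ∀ ξ ≤ i, rho c (g.nx i) ξ = rho c (g'.nx i) ξ

open scoped Classical in
/-- the map -/
noncomputable def FF (g : GG S) : W1 → Bool := fun k => decide (k ∈ g.X)

theorem RR.equivalence (c : W1 → ℕ → W1) (i : W1) : Equivalence (RR (S := S) c i) := by
  refine ⟨?_, ?_, ?_⟩
  · intro g
    exact ⟨fun _ _ => Iff.rfl, fun _ _ _ _ _ => Iff.rfl, fun _ _ => rfl⟩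
  · rintro g g' ⟨h1, h2, h3⟩
    refine ⟨fun k hk => (h1 k hk).symm, ?_, fun ξ hξ => (h3 ξ hξ).symm⟩
    intro k hk hki x hx
    exact (h2 k ((h1 k hki).2 hk) hki x hx).symm
  · rintro g g' g'' ⟨h1, h2, h3⟩ ⟨h1', h2', h3'⟩
    refine ⟨fun k hk => (h1 k hk).trans (h1' k hk), ?_, fun ξ hξ => (h3 ξ hξ).trans (h3' ξ hξ)⟩
    intro k hk hki x hx
    exact (h2 k hk hki x hx).trans (h2' k ((h1 k hki).1 hk) hki x hx)

theorem RR.anti (c : W1 → ℕ → W1) (i j : W1) (hij : i ≤ j) (g g' : GG S) (h : RR c j g g') :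
    RR c i g g' := by
  obtain ⟨h1, h2, h3⟩ := h
  refine ⟨fun k hk => h1 k (hk.trans hij), fun k hk hki => h2 k hk (hki.trans hij), ?_⟩
  intro ξ hξ
  by_cases hex : g.nx i ≤ j
  · have : g'.nx i = g.nx i := by
      apply g'.nx_eq ((h1 _ hex).1 (g.nx_mem i)) (g.lt_nx i)
      intro l hl hil
      by_contra hcon
      push Not at hcon
      have : l ∈ g.C := (h1 l (hcon.le.trans hex)).2 hl
      exact absurd (g.nx_le this hil) (not_le.2 hcon)
    rw [this]
  · have hex' : ¬ g'.nx i ≤ j := by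
      intro h4
      apply hex
      exact (g.nx_le ((h1 _ h4).2 (g'.nx_mem i)) (g'.lt_nx i)).trans h4
    push Not at hex hex'
    have e1 : g.nx i = g.nx j := by
      apply g.nx_eq (g.nx_mem j) (lt_of_le_of_lt hij (g.lt_nx j))
      intro l hl hil
      exact g.nx_le hl (lt_of_lt_of_le hex (g.nx_le hl hil))
    have e2 : g'.nx i = g'.nx j := by
      apply g'.nx_eq (g'.nx_mem j) (lt_of_le_of_lt hij (g'.lt_nx j))
      intro l hl hil
      exact g'.nx_le hl (lt_of_lt_of_le hex' (g'.nx_le hl hil))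
    rw [e1, e2]
    exact h3 ξ (hξ.trans hij)

theorem RR.countable {c : W1 → ℕ → W1} (hc : Enum c) (hS : ∀ i, (S i).Countable) (i : W1) :
    {A : Set (GG S) | ∃ g, A = {g' | RR c i g g'}}.Countable := by
  classical
  set D : GG S → W1 × Set W1 × Set W1 × (Iic i → ℕ) := fun g =>
    (g.mx i, g.X ∩ Iio (g.mx i), g.C ∩ Iio (g.mx i), res c i (g.nx i)) with hD
  have hDR : ∀ g g', D g = D g' → RR c i g g' := by
    intro g g' h
    simp only [hD, Prod.mk.injEq] at h
    obtain ⟨h1, h2, h3, h4⟩ := h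
    refine ⟨?_, ?_, ?_⟩
    · intro k hk
      constructor
      · intro hkC
        rcases (g.le_mx hkC hk).lt_or_eq with h5 | h5
        · have : k ∈ g.C ∩ Iio (g.mx i) := ⟨hkC, h5⟩
          rw [h3] at this
          exact this.1
        · rw [h5, h1]; exact g'.mx_mem i
      · intro hkC
        rcases (g'.le_mx hkC hk).lt_or_eq with h5 | h5
        · have : k ∈ g'.C ∩ Iio (g'.mx i) := ⟨hkC, h5⟩
          rw [← h3] at this
          exact this.1
        · rw [h5, ← h1]; exact g.mx_mem i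
    · intro k hk hki x hx
      have h5 := g.le_mx hk hki
      constructor
      · intro hxX
        have : x ∈ g.X ∩ Iio (g.mx i) := ⟨hxX, lt_of_lt_of_le hx h5⟩
        rw [h2] at this
        exact this.1
      · intro hxX
        have : x ∈ g'.X ∩ Iio (g'.mx i) := ⟨hxX, by rw [← h1]; exact lt_of_lt_of_le hx h5⟩
        rw [← h2] at this
        exact this.1
    · intro ξ hξ
      exact congrFun h4 ⟨ξ, hξ⟩
  have hcD : (range D).Countable := by
    have hsub : range D ⊆ ⋃ β ∈ Iic i, (({β} : Set W1) ×ˢ ((S β) ×ˢ ((S β) ×ˢ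
        {w : Iic i → ℕ | ∃ γ, i < γ ∧ res c i γ = w}))) := by
      rintro _ ⟨g, rfl⟩
      simp only [mem_iUnion]
      refine ⟨g.mx i, g.mx_le i, rfl, (g.good.diam _ (g.mx_mem i)).1,
        (g.good.diam _ (g.mx_mem i)).2, g.nx i, g.lt_nx i, rfl⟩
    refine Set.Countable.mono hsub ?_
    refine Set.Countable.biUnion (countable_Iic i) ?_
    intro β _
    exact (countable_singleton β).prod ((hS β).prod ((hS β).prod
      (hc.countable_res countable_Iio i)))
  have hfin : {A : Set (GG S) | ∃ g, A = {g' | RR c i g g'}} ⊆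
      (fun y => {g' : GG S | ∃ g, D g = y ∧ RR c i g g'}) '' (range D) := by
    rintro A ⟨g, rfl⟩
    refine ⟨D g, ⟨g, rfl⟩, ?_⟩
    ext g'
    constructor
    · rintro ⟨g1, h1, h2⟩
      exact (RR.equivalence c i).trans (hDR g g1 h1.symm) h2
    · intro h
      exact ⟨g, rfl, h⟩
  exact (hcD.image _).mono hfin

theorem RR.complete {c : W1 → ℕ → W1} (hc : Enum c) (γ : W1 → GG S)
    (hγ : ∀ i j, i ≤ j → RR c i (γ i) (γ j)) : ∃ g' : GG S, ∀ i, RR c i g' (γ i) := by
  classical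
  set C : Set W1 := {i | i ∈ (γ i).C} with hC
  set X : Set W1 := {x | ∃ k ∈ C, x < k ∧ x ∈ (γ k).X} with hX
  have hCi : ∀ i j, i ≤ j → (i ∈ C ↔ i ∈ (γ j).C) := by
    intro i j hij
    exact (hγ i j hij).1 i le_rfl
  have hXk : ∀ k ∈ C, ∀ j, k ≤ j → ∀ x < k, (x ∈ X ↔ x ∈ (γ j).X) := by
    intro k hk j hkj x hx
    constructor
    · rintro ⟨k', hk', hxk', hxX⟩
      rcases le_total k' j with h | h
      · exact ((hγ k' j h).2.1 k' hk' le_rfl x hxk').1 hxX
      · refine ((hγ j k' h).2.1 k ((hCi k j hkj).1 hk) hkj x hx).2 hxX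
    · intro hxX
      refine ⟨k, hk, hx, ?_⟩
      exact ((hγ k j hkj).2.1 k hk le_rfl x hx).2 hxX
  have hclub : IsClub C := by
    refine ⟨?_, ?_⟩
    · by_contra hcon
      push Not at hcon
      obtain ⟨i₀, hi₀⟩ := hcon
      refine hc.no_thread not_countable_univ (fun s hs => exists_bound hs) i₀
        (fun i => (γ i).nx i) (fun i _ => (γ i).lt_nx i) ?_
      intro i j hi hij ξ hξ
      have e : (γ j).nx i = (γ j).nx j := by
        apply (γ j).nx_eq ((γ j).nx_mem j) (lt_of_le_of_lt hij ((γ j).lt_nx j))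
        intro l hl hil
        apply (γ j).nx_le hl
        by_contra hcon
        push Not at hcon
        have : l ∈ C := (hCi l j hcon).2 hl
        exact absurd (lt_of_le_of_lt hi hil) (not_lt.2 (hi₀ l this))
      have h2 := (hγ i j hij).2.2 ξ hξ
      rw [e] at h2
      exact h2
    · intro i hi h
      refine (γ i).good.club.closed i hi ?_
      intro j hj
      obtain ⟨k, hk, hjk, hki⟩ := h j hj
      exact ⟨k, (hCi k i hki.le).1 hk, hjk, hki⟩
  have hgood : Good S X C := by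
    refine ⟨hclub, ?_, ?_⟩
    · intro i hi
      exact (γ i).good.bot i hi
    · intro i hi
      have e1 : X ∩ Iio i = (γ i).X ∩ Iio i := by
        ext x
        constructor
        · rintro ⟨h1, h2⟩
          exact ⟨(hXk i hi i le_rfl x h2).1 h1, h2⟩
        · rintro ⟨h1, h2⟩
          exact ⟨(hXk i hi i le_rfl x h2).2 h1, h2⟩
      have e2 : C ∩ Iio i = (γ i).C ∩ Iio i := by
        ext x
        constructor
        · rintro ⟨h1, h2⟩
          exact ⟨(hCi x i (le_of_lt h2)).1 h1, h2⟩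
        · rintro ⟨h1, h2⟩
          exact ⟨(hCi x i (le_of_lt h2)).2 h1, h2⟩
      rw [e1, e2]
      exact (γ i).good.diam i hi
  set g' : GG S := ⟨(X, C), hgood⟩ with hg'
  have hg'C : g'.C = C := rfl
  have hg'X : g'.X = X := rfl
  refine ⟨g', fun i => ⟨?_, ?_, ?_⟩⟩
  · intro k hk
    rw [hg'C]
    exact hCi k i hk
  · intro k hk hki x hx
    rw [hg'X]
    exact hXk k hk i hki x hx
  · intro ξ hξ
    have hn1 : g'.nx i ∈ C := g'.nx_mem i
    have hn2 : i < g'.nx i := g'.lt_nx i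
    have e : (γ (g'.nx i)).nx i = g'.nx i := by
      apply (γ (g'.nx i)).nx_eq hn1 hn2
      intro l hl hil
      by_contra hcon
      push Not at hcon
      have hl2 : l ∈ C := (hCi l _ hcon.le).2 hl
      exact absurd (g'.nx_le hl2 hil) (not_le.2 hcon)
    have h2 := (hγ i (g'.nx i) hn2.le).2.2 ξ hξ
    rw [e] at h2
    exact h2.symm

theorem exists_sys (hD : DiamondPlus) : ∃ (G : Type) (R : W1 → G → G → Prop)
    (F : G → (W1 → Bool)), Sys G R F := by
  classical
  obtain ⟨S, hS, hgood⟩ := exists_good hD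
  obtain ⟨c, hc⟩ := exists_enum (I := W1) countable_Iio
  refine ⟨GG S, RR c, FF, RR.equivalence c, RR.anti c, RR.countable hc hS, RR.complete hc, ?_, ?_⟩
  · intro y
    obtain ⟨C, hC⟩ := hgood {k | y k = true}
    refine ⟨⟨({k | y k = true}, C), hC⟩, ?_⟩
    funext k
    unfold FF
    by_cases h : y k = true
    · simp [GG.X, h]
    · simp [GG.X, h]
  · intro g i
    obtain ⟨k, hk, hik⟩ := g.good.club.unbounded i
    refine ⟨k, fun g' h l hl => ?_⟩
    have := h.2.1 k hk le_rfl l (lt_trans hl hik)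
    unfold FF
    simp [this]

theorem strong_of_diamondPlus (hD : DiamondPlus) :
    ∃ (T : Type) (_ : PartialOrder T), IsStrongKurepa T := by
  obtain ⟨G, R, F, hS⟩ := exists_sys hD
  exact ⟨Tr R, inferInstance, strong_of_sys hS⟩

end H68.KT
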