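import Mathlib

open Set Cardinal Ordinal

namespace H68.KT

/-- `ω₁`, as a well-ordered type. -/
abbrev W1 : Type := (ω_ 1 : Ordinal.{0}).ToType

/-- The ordinal `< ω₁` named by an element of `W1`. -/
noncomputable def W1.ord (i : W1) : Ordinal.{0} := (Ordinal.ToType.toOrd i : Ordinal.{0})

/-- A tree: a partial order in which the predecessors of every node are well-ordered. -/
def IsTree (T : Type) [PartialOrder T] : Prop :=
  ∀ t : T, IsWellOrder (Iio t) (· < ·)

/-- The height (level) of a node of a tree: the order type of its set of predecessors. -/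
noncomputable def height {T : Type} [PartialOrder T] (h : IsTree T) (t : T) : Ordinal.{0} :=
  @Ordinal.type (Iio t) (· < ·) (h t)

/-- An `ω₁`-tree: a tree of height `ω₁` all of whose levels are countable. -/
structure IsOmegaOneTree (T : Type) [PartialOrder T] : Prop where
  isTree : IsTree T
  height_lt : ∀ t, height isTree t < ω_ 1
  exists_height : ∀ α < (ω_ 1 : Ordinal.{0}), ∃ t, height isTree t = α
  countable_level : ∀ α < (ω_ 1 : Ordinal.{0}), {t | height isTree t = α}.Countable

/-- A cofinal branch: a downward closed chain meeting every level. -/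
def IsCofinalBranch {T : Type} [PartialOrder T] (h : IsTree T) (b : Set T) : Prop :=
  IsLowerSet b ∧ IsChain (· ≤ ·) b ∧ ∀ α < (ω_ 1 : Ordinal.{0}), ∃ t ∈ b, height h t = α

/-- The set `[T]` of cofinal branches. -/
def Branch {T : Type} [PartialOrder T] (h : IsTree T) : Type :=
  {b : Set T // IsCofinalBranch h b}

/-- A Kurepa tree: an `ω₁`-tree with at least `ℵ₂` cofinal branches. -/
def IsKurepa (T : Type) [PartialOrder T] : Prop :=
  ∃ h : IsOmegaOneTree T, ℵ_ 2 ≤ #(Branch h.isTree)

/-- The cone topology on `[T]`. -/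
@[reducible] def coneBranch {T : Type} [PartialOrder T] (h : IsTree T) : TopologicalSpace (Branch h) :=
  TopologicalSpace.generateFrom {U | ∃ t : T, U = {b | t ∈ b.1}}

/-- The cone topology on `{}^{ω₁}2`. -/
@[reducible] def coneFun : TopologicalSpace (W1 → Bool) :=
  TopologicalSpace.generateFrom {U | ∃ (i : W1) (s : W1 → Bool), U = {g | ∀ j < i, g j = s j}}

/-- A strong Kurepa tree: a Kurepa tree `T` with a continuous surjection `[T] → {}^{ω₁}2`. -/
def IsStrongKurepa (T : Type) [PartialOrder T] : Prop :=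
  IsKurepa T ∧ ∃ (h : IsTree T) (F : Branch h → (W1 → Bool)),
    @Continuous _ _ (coneBranch h) coneFun F ∧ Function.Surjective F

/-- Closed unbounded subsets of `ω₁`. -/
structure IsClub (C : Set W1) : Prop where
  unbounded : ∀ i, ∃ j ∈ C, i < j
  closed : ∀ i, (∃ j, j < i) → (∀ j < i, ∃ k ∈ C, j < k ∧ k < i) → i ∈ C

/-- Jensen's principle `◇⁺` -/
def DiamondPlus : Prop :=
  ∃ S : W1 → Set (Set W1), (∀ i, (S i).Countable) ∧ (∀ i, ∀ A ∈ S i, A ⊆ Iio i) ∧
    ∀ X : Set W1, ∃ C : Set W1, IsClub C ∧ ∀ i ∈ C, X ∩ Iio i ∈ S i ∧ C ∩ Iio i ∈ S i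

/-! ### basic facts about `W1` -/

theorem mk_W1 : #W1 = ℵ₁ := by
  rw [mk_toType]; simp

theorem mk_Iio_lt_W1 (i : W1) : #(Iio i) < ℵ₁ := by
  rw [← mk_W1]
  apply Cardinal.mk_Iio_lt
  rw [mk_W1, ord_aleph, type_toType]

theorem countable_iff (s : Set W1) : s.Countable ↔ #s < ℵ₁ := by
  rw [lt_aleph_one_iff, Cardinal.le_aleph0_iff_set_countable]

theorem countable_Iio (i : W1) : (Iio i).Countable := (countable_iff _).2 (mk_Iio_lt_W1 i)

theorem countable_Iic (i : W1) : (Iic i).Countable := by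
  have : (Iic i : Set W1) = insert i (Iio i) := by
    ext x; simp [le_iff_eq_or_lt]
  rw [this]
  exact (countable_Iio i).insert i

theorem not_countable_univ : ¬ (univ : Set W1).Countable := by
  rw [countable_iff, mk_univ, mk_W1]
  exact lt_irrefl _

theorem exists_bound {s : Set W1} (hs : s.Countable) : ∃ b, ∀ a ∈ s, a < b := by
  by_contra hcon
  push Not at hcon
  apply not_countable_univ
  have : (univ : Set W1) ⊆ ⋃ a ∈ s, Iic a := by
    intro b _
    obtain ⟨a, ha, hb⟩ := hcon b
    simp only [mem_iUnion]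
    exact ⟨a, ha, hb⟩
  exact (Set.Countable.biUnion hs fun a _ => countable_Iic a).mono this

theorem exists_gt' (i : W1) : ∃ j, i < j := by
  obtain ⟨b, hb⟩ := exists_bound (countable_singleton i)
  exact ⟨b, hb i rfl⟩

theorem ord_lt (i : W1) : i.ord < ω_ 1 := (Ordinal.ToType.toOrd i).2

theorem ord_lt_ord {i j : W1} : i.ord < j.ord ↔ i < j := by
  unfold W1.ord
  rw [Subtype.coe_lt_coe]
  exact Ordinal.ToType.mk.symm.lt_iff_lt

theorem ord_le_ord {i j : W1} : i.ord ≤ j.ord ↔ i ≤ j := by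
  unfold W1.ord
  rw [Subtype.coe_le_coe]
  exact Ordinal.ToType.mk.symm.le_iff_le

theorem ord_inj {i j : W1} : i.ord = j.ord ↔ i = j := by
  constructor
  · intro h
    exact le_antisymm (ord_le_ord.1 h.le) (ord_le_ord.1 h.ge)
  · rintro rfl; rfl

theorem exists_ord {α : Ordinal.{0}} (h : α < ω_ 1) : ∃ i : W1, i.ord = α := by
  refine ⟨Ordinal.ToType.mk ⟨α, h⟩, ?_⟩
  unfold W1.ord
  simp

theorem ord_eq_type (i : W1) : i.ord = @Ordinal.type (Iio i) (· < ·) inferInstance := by
  rw [type_Iio_lt]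
  rfl

/-- closure points of a countable family of requirements are unbounded -/
theorem exists_closure (f : W1 → W1) (i₀ : W1) :
    ∃ i, i₀ < i ∧ ∀ j < i, ∃ k < i, j < k ∧ f j < k := by
  classical
  have h1 : ∀ i : W1, ∃ b, i < b ∧ ∀ j ≤ i, f j < b := by
    intro i
    obtain ⟨b, hb⟩ := exists_bound (s := insert i (f '' Iic i))
      (((countable_Iic i).image f).insert i)
    refine ⟨b, hb i (mem_insert _ _), fun j hj => hb _ (mem_insert_of_mem _ (mem_image_of_mem f hj))⟩
  choose g hg1 hg2 using h1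
  set s : ℕ → W1 := fun n => g^[n] i₀ with hs
  have hsucc : ∀ n, s (n + 1) = g (s n) := fun n => Function.iterate_succ_apply' g n i₀
  obtain ⟨b, hb⟩ := exists_bound (countable_range s)
  have hne : {u : W1 | ∀ n, s n < u}.Nonempty := ⟨b, fun n => hb _ ⟨n, rfl⟩⟩
  set i := WellFounded.min (wellFounded_lt (α := W1)) _ hne with hi
  have hmem : ∀ n, s n < i := WellFounded.min_mem (wellFounded_lt (α := W1)) _ hne
  have hlt : ∀ j < i, ∃ n, j ≤ s n := by
    intro j hj
    by_contra hcon
    push Not at hcon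
    exact WellFounded.not_lt_min (wellFounded_lt (α := W1)) _ (show j ∈ {u : W1 | ∀ n, s n < u} from hcon) hj
  refine ⟨i, hmem 0, ?_⟩
  intro j hj
  obtain ⟨n, hn⟩ := hlt j hj
  refine ⟨s (n + 1), hmem _, ?_, ?_⟩
  · rw [hsucc]; exact lt_of_le_of_lt hn (hg1 _)
  · rw [hsucc]; exact hg2 _ _ hn

end H68.KT
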