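import Pool.Agent.H68.KT.Defs

open Set Cardinal Ordinal

namespace H68.KT

section fwd

variable {T : Type} [PartialOrder T]

theorem height_lt_height (h : IsTree T) {s t : T} (hst : s < t) : height h s < height h t := by
  have := h s
  have := h t
  have f : @PrincipalSeg (Iio s) (Iio t) (· < ·) (· < ·) := by
    refine ⟨⟨⟨fun x => ⟨x.1, lt_trans x.2 hst⟩, ?_⟩, ?_⟩, ⟨s, hst⟩, ?_⟩
    · intro x y hxy
      have h1 : (x : T) = (y : T) := congrArg (fun z : Iio t => (z : T)) hxy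
      exact Subtype.ext h1
    · intro a b
      exact Iff.rfl
    · intro x
      constructor
      · rintro ⟨y, rfl⟩
        exact y.2
      · intro hx
        exact ⟨⟨x.1, hx⟩, rfl⟩
  exact f.ordinal_type_lt

variable (h : IsOmegaOneTree T)

/-- the level of a node, as an element of `W1` -/
noncomputable def lv (t : T) : W1 := (exists_ord (h.height_lt t)).choose

theorem ord_lv (t : T) : (lv h t).ord = height h.isTree t := (exists_ord (h.height_lt t)).choose_spec

theorem lv_lt_lv {s t : T} (hst : s < t) : lv h s < lv h t := by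
  rw [← ord_lt_ord, ord_lv, ord_lv]
  exact height_lt_height _ hst

theorem countable_lv (i : W1) : {t | lv h t = i}.Countable := by
  refine (h.countable_level i.ord (ord_lt i)).mono ?_
  intro t ht
  show height h.isTree t = i.ord
  rw [← ord_lv, ← (show lv h t = i from ht)]

theorem Branch.exists_lv (b : Branch h.isTree) (i : W1) : ∃ t ∈ b.1, lv h t = i := by
  obtain ⟨t, ht, hti⟩ := b.2.2.2 i.ord (ord_lt i)
  refine ⟨t, ht, ?_⟩
  rw [← ord_inj, ord_lv, hti]

theorem lt_of_lv_lt (b : Branch h.isTree) {s t : T} (hs : s ∈ b.1) (ht : t ∈ b.1)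
    (hl : lv h s < lv h t) : s < t := by
  rcases b.2.2.1.total hs ht with h1 | h1
  · refine lt_of_le_of_ne h1 ?_
    rintro rfl
    exact lt_irrefl _ hl
  · exfalso
    rcases h1.lt_or_eq with h2 | h2
    · exact lt_asymm hl (lv_lt_lv h h2)
    · rw [h2] at hl
      exact lt_irrefl _ hl

/-- cones form a basis -/
theorem exists_cone {U : Set (Branch h.isTree)} (hU : @IsOpen _ (coneBranch h.isTree) U)
    (b : Branch h.isTree) (hb : b ∈ U) : ∃ t ∈ b.1, ∀ b' : Branch h.isTree, t ∈ b'.1 → b' ∈ U := by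
  induction hU with
  | basic s hs =>
    obtain ⟨t, rfl⟩ := hs
    exact ⟨t, hb, fun b' h' => h'⟩
  | univ =>
    obtain ⟨t, ht, _⟩ := b.2.2.2 0 (omega_pos 1)
    exact ⟨t, ht, fun _ _ => trivial⟩
  | inter s t _ _ ihs iht =>
    obtain ⟨x, hx, hx'⟩ := ihs hb.1
    obtain ⟨y, hy, hy'⟩ := iht hb.2
    rcases b.2.2.1.total hx hy with h1 | h1
    · exact ⟨y, hy, fun b' h' => ⟨hx' b' (b'.2.1 h1 h'), hy' b' h'⟩⟩
    · exact ⟨x, hx, fun b' h' => ⟨hx' b' h', hy' b' (b'.2.1 h1 h')⟩⟩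
  | sUnion S _ ih =>
    obtain ⟨s, hs, hbs⟩ := hb
    obtain ⟨t, ht, ht'⟩ := ih s hs hbs
    exact ⟨t, ht, fun b' h' => ⟨s, hs, ht' b' h'⟩⟩

variable (F : Branch h.isTree → (W1 → Bool))

/-- the node `t` decides the value of `F` at `j`. -/
def Dec (t : T) (j : W1) : Prop :=
  ∀ b b' : Branch h.isTree, t ∈ b.1 → t ∈ b'.1 → F b j = F b' j

/-- the set computed from the node `t` -/
def sSet (t : T) : Set W1 :=
  {x | x < lv h t ∧ ∃ t' < t, ∀ b : Branch h.isTree, t' ∈ b.1 → F b x = true}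

/-- the club computed from the node `t` -/
def cSet (t : T) : Set W1 :=
  {i | i < lv h t ∧ ∀ j < i, ∃ t' < t, lv h t' < i ∧ Dec h F t' j}

theorem diamondPlus_of_strong (hF : @Continuous _ _ (coneBranch h.isTree) coneFun F)
    (hs : Function.Surjective F) : DiamondPlus := by
  classical
  refine ⟨fun i => (sSet h F '' {t | lv h t = i}) ∪ (cSet h F '' {t | lv h t = i}), ?_, ?_, ?_⟩
  · intro i
    exact ((countable_lv h i).image _).union ((countable_lv h i).image _)
  · rintro i A (⟨t, rfl, rfl⟩ | ⟨t, rfl, rfl⟩)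
    · intro x hx; exact hx.1
    · intro x hx; exact hx.1
  intro X
  obtain ⟨b, hb⟩ := hs (fun i => decide (i ∈ X))
  have hdec : ∀ j : W1, ∃ t ∈ b.1, Dec h F t j := by
    intro j
    obtain ⟨k, hk⟩ := exists_gt' j
    have hop : @IsOpen _ coneFun {g : W1 → Bool | ∀ l < k, g l = F b l} :=
      TopologicalSpace.isOpen_generateFrom_of_mem ⟨k, F b, rfl⟩
    have hpre := @Continuous.isOpen_preimage _ _ (coneBranch h.isTree) coneFun F hF _ hop
    obtain ⟨t, ht, ht'⟩ := exists_cone h hpre b (fun l _ => rfl)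
    refine ⟨t, ht, ?_⟩
    intro b1 b2 h1 h2
    have e1 := ht' b1 h1 j hk
    have e2 := ht' b2 h2 j hk
    rw [e1, e2]
  set C : Set W1 := {i | ∀ j < i, ∃ t' ∈ b.1, lv h t' < i ∧ Dec h F t' j} with hC
  refine ⟨C, ⟨?_, ?_⟩, ?_⟩
  · intro i₀
    choose τ hτ1 hτ2 using hdec
    obtain ⟨i, hi, hi2⟩ := exists_closure (fun j => lv h (τ j)) i₀
    refine ⟨i, ?_, hi⟩
    intro j hj
    obtain ⟨k, hk, hjk, hfk⟩ := hi2 j hj
    exact ⟨τ j, hτ1 j, lt_trans hfk hk, hτ2 j⟩
  · intro i _ hi j hj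
    obtain ⟨k, hk, hjk, hki⟩ := hi j hj
    obtain ⟨t', h1, h2, h3⟩ := hk j hjk
    exact ⟨t', h1, lt_trans h2 hki, h3⟩
  · intro i hi
    obtain ⟨t, ht, rfl⟩ := Branch.exists_lv h b i
    constructor
    · left
      refine ⟨t, rfl, ?_⟩
      ext x
      constructor
      · rintro ⟨hx, t', htt, hall⟩
        refine ⟨?_, hx⟩
        have := hall b (b.2.1 htt.le ht)
        rw [hb] at this
        simpa using this
      · rintro ⟨hxX, hx⟩
        refine ⟨hx, ?_⟩
        obtain ⟨t', h1, h2, h3⟩ := hi x hx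
        refine ⟨t', lt_of_lv_lt h b h1 ht h2, ?_⟩
        intro b' hb'
        rw [h3 b' b hb' h1, hb]
        simpa using hxX
    · right
      refine ⟨t, rfl, ?_⟩
      ext x
      constructor
      · rintro ⟨hx, hall⟩
        refine ⟨?_, hx⟩
        intro j hj
        obtain ⟨t', h1, h2, h3⟩ := hall j hj
        exact ⟨t', b.2.1 h1.le ht, h2, h3⟩
      · rintro ⟨hxC, hx⟩
        refine ⟨hx, ?_⟩
        intro j hj
        obtain ⟨t', h1, h2, h3⟩ := hxC j hj
        exact ⟨t', lt_of_lv_lt h b h1 ht (lt_trans h2 hx), h2, h3⟩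

end fwd

end H68.KT
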