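import Pool.Agent.H68.KT.Defs

open Set Cardinal Ordinal

namespace H68.KT

/-- A decreasing system of equivalence relations. -/
structure Sys (G : Type) (R : W1 → G → G → Prop) (F : G → (W1 → Bool)) : Prop where
  equiv : ∀ i, Equivalence (R i)
  anti : ∀ i j, i ≤ j → ∀ g g', R j g g' → R i g g'
  countable : ∀ i, {A : Set G | ∃ g, A = {g' | R i g g'}}.Countable
  complete : ∀ g : W1 → G, (∀ i j, i ≤ j → R i (g i) (g j)) → ∃ g', ∀ i, R i g' (g i)
  surj : Function.Surjective F
  cont : ∀ g i, ∃ j, ∀ g', R j g g' → ∀ k < i, F g' k = F g k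

section sys

variable {G : Type} {R : W1 → G → G → Prop} {F : G → (W1 → Bool)}

/-- equivalence class -/
def cls (R : W1 → G → G → Prop) (i : W1) (g : G) : Set G := {g' | R i g g'}

/-- the tree of the system -/
def Tr (R : W1 → G → G → Prop) : Type :=
  {t : W1 × (Set G)ᵒᵈ // ∃ g, t.2 = OrderDual.toDual (cls R t.1 g)}

noncomputable instance : PartialOrder (Tr R) := Subtype.partialOrder _

/-- node -/
def node (R : W1 → G → G → Prop) (i : W1) (g : G) : Tr R :=
  ⟨(i, OrderDual.toDual (cls R i g)), g, rfl⟩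

/-- level of a node -/
def lev (t : Tr R) : W1 := t.1.1

@[simp] theorem lev_node (i : W1) (g : G) : lev (node R i g) = i := rfl

theorem exists_node (t : Tr R) : ∃ g, t = node R (lev t) g := by
  obtain ⟨⟨i, A⟩, g, hg⟩ := t
  refine ⟨g, ?_⟩
  apply Subtype.ext
  apply Prod.ext
  · rfl
  · exact hg

variable (S : Sys G R F)
include S

theorem node_le_node {i j : W1} {g g' : G} : node R i g ≤ node R j g' ↔ i ≤ j ∧ R i g g' := by
  constructor
  · intro h
    have h1 : i ≤ j := h.1
    have h2 : cls R j g' ⊆ cls R i g := h.2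
    exact ⟨h1, h2 ((S.equiv j).refl g')⟩
  · rintro ⟨h1, h2⟩
    refine ⟨h1, ?_⟩
    show cls R j g' ⊆ cls R i g
    intro x hx
    exact (S.equiv i).trans h2 (S.anti i j h1 _ _ hx)

theorem node_eq_node {i : W1} {g g' : G} (h : R i g g') : node R i g = node R i g' := by
  apply le_antisymm
  · exact (node_le_node S).2 ⟨le_rfl, h⟩
  · exact (node_le_node S).2 ⟨le_rfl, (S.equiv i).symm h⟩

theorem lt_node_iff {j : W1} {g : G} (t : Tr R) : t < node R j g ↔ lev t < j ∧ t = node R (lev t) g := by
  obtain ⟨g', hg'⟩ := exists_node t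
  constructor
  · intro h
    have h1 := h.le
    rw [hg', node_le_node S] at h1
    have h2 : t = node R (lev t) g := by
      rw [hg']; exact node_eq_node S h1.2
    refine ⟨?_, h2⟩
    refine lt_of_le_of_ne h1.1 ?_
    intro h3
    rw [h3] at h2
    rw [h2] at h
    exact lt_irrefl _ h
  · rintro ⟨h1, h2⟩
    rw [h2]
    refine lt_of_le_of_ne ((node_le_node S).2 ⟨h1.le, (S.equiv _).refl g⟩) ?_
    intro h3
    have := congrArg lev h3
    simp only [lev_node] at this
    exact h1.ne this

/-- predecessors of a node -/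
def predIso (j : W1) (g : G) :
    @RelIso (Iio (node R j g)) (Iio j) (· < ·) (· < ·) where
  toFun x := ⟨lev x.1, ((lt_node_iff S x.1).1 x.2).1⟩
  invFun i := ⟨node R i.1 g, (lt_node_iff S _).2 ⟨i.2, rfl⟩⟩
  left_inv x := Subtype.ext ((lt_node_iff S x.1).1 x.2).2.symm
  right_inv i := rfl
  map_rel_iff' := by
    intro a b
    have hb := (lt_node_iff S b.1).1 b.2
    have ha := (lt_node_iff S a.1).1 a.2
    constructor
    · intro h
      show a.1 < b.1
      rw [hb.2, lt_node_iff S]
      exact ⟨h, ha.2⟩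
    · intro h
      have h' : a.1 < b.1 := h
      rw [hb.2, lt_node_iff S] at h'
      exact h'.1

theorem isTree : IsTree (Tr R) := by
  intro t
  obtain ⟨g, hg⟩ := exists_node t
  rw [hg]
  exact (predIso S (lev t) g).toRelEmbedding.isWellOrder

theorem height_node (j : W1) (g : G) : height (isTree S) (node R j g) = j.ord := by
  rw [ord_eq_type]
  unfold height
  have := isTree S (node R j g)
  exact (predIso S j g).ordinalType_congr

theorem height_eq (t : Tr R) : height (isTree S) t = (lev t).ord := by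
  obtain ⟨g, hg⟩ := exists_node t
  conv_lhs => rw [hg]
  exact height_node S _ g

theorem nonempty : Nonempty G := by
  obtain ⟨g, _⟩ := S.surj (fun _ => true)
  exact ⟨g⟩

theorem isOmegaOneTree : IsOmegaOneTree (Tr R) := by
  refine ⟨isTree S, ?_, ?_, ?_⟩
  · intro t
    rw [height_eq S]
    exact ord_lt _
  · intro α hα
    obtain ⟨i, rfl⟩ := exists_ord hα
    obtain ⟨g⟩ := nonempty S
    exact ⟨node R i g, height_node S i g⟩
  · intro α hα
    obtain ⟨i, rfl⟩ := exists_ord hα
    have h1 := S.countable i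
    refine Set.MapsTo.countable_of_injOn (f := fun t : Tr R => OrderDual.ofDual t.1.2)
      (t := {A : Set G | ∃ g, A = {g' | R i g g'}}) ?_ ?_ h1
    · intro t ht
      have hi : lev t = i := by
        have h2 : height (isTree S) t = i.ord := ht
        rw [height_eq S, ord_inj] at h2
        exact h2
      obtain ⟨g, hg⟩ := t.2
      refine ⟨g, ?_⟩
      show t.1.2 = _
      rw [hg, show t.1.1 = i from hi]
      rfl
    · intro t ht t' ht' htt
      have hi : lev t = i := by
        have h2 : height (isTree S) t = i.ord := ht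
        rw [height_eq S, ord_inj] at h2
        exact h2
      have hi' : lev t' = i := by
        have h2 : height (isTree S) t' = i.ord := ht'
        rw [height_eq S, ord_inj] at h2
        exact h2
      apply Subtype.ext
      apply Prod.ext
      · exact hi.trans hi'.symm
      · exact htt

/-- the branch of an element -/
def br (g : G) : Branch (isTree S) :=
  ⟨{t | ∃ i, t = node R i g}, by
    refine ⟨?_, ?_, ?_⟩
    · rintro s t hts ⟨i, rfl⟩
      rcases hts.lt_or_eq with h | h
      · exact ⟨_, ((lt_node_iff S t).1 h).2⟩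
      · exact ⟨i, h⟩
    · rintro s ⟨i, rfl⟩ t ⟨j, rfl⟩ _
      rcases le_total i j with h | h
      · left; exact (node_le_node S).2 ⟨h, (S.equiv _).refl g⟩
      · right; exact (node_le_node S).2 ⟨h, (S.equiv _).refl g⟩
    · intro α hα
      obtain ⟨i, rfl⟩ := exists_ord hα
      exact ⟨node R i g, ⟨i, rfl⟩, height_node S i g⟩⟩

theorem node_mem_br {i : W1} {g g' : G} : node R i g ∈ (br S g').1 ↔ R i g g' := by
  constructor
  · rintro ⟨j, hj⟩
    have h1 := congrArg lev hj
    simp only [lev_node] at h1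
    subst h1
    exact ((node_le_node S).1 hj.le).2
  · intro h
    exact ⟨i, node_eq_node S h⟩

theorem exists_br (b : Branch (isTree S)) : ∃ g, b = br S g := by
  have h1 : ∀ i : W1, ∃ g, node R i g ∈ b.1 := by
    intro i
    obtain ⟨t, ht, hti⟩ := b.2.2.2 i.ord (ord_lt i)
    rw [height_eq S, ord_inj] at hti
    obtain ⟨g, hg⟩ := exists_node t
    refine ⟨g, ?_⟩
    rw [← hti, ← hg]
    exact ht
  choose γ hγ using h1
  have hcoh : ∀ i j, i ≤ j → R i (γ i) (γ j) := by
    intro i j hij
    rcases b.2.2.1.total (hγ i) (hγ j) with h | h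
    · exact ((node_le_node S).1 h).2
    · have h2 := (node_le_node S).1 h
      have : i = j := le_antisymm hij h2.1
      subst this
      exact (S.equiv _).symm h2.2
  obtain ⟨g, hg⟩ := S.complete γ hcoh
  refine ⟨g, ?_⟩
  apply Subtype.ext
  ext t
  constructor
  · intro ht
    refine ⟨lev t, ?_⟩
    obtain ⟨g', hg'⟩ := exists_node t
    have ht2 : node R (lev t) g' ∈ b.1 := by rw [← hg']; exact ht
    rcases b.2.2.1.total ht2 (hγ (lev t)) with h | h
    · rw [hg']
      exact node_eq_node S ((S.equiv _).trans ((node_le_node S).1 h).2 ((S.equiv _).symm (hg _)))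
    · rw [hg']
      exact node_eq_node S ((S.equiv _).trans ((S.equiv _).symm ((node_le_node S).1 h).2)
        ((S.equiv _).symm (hg _)))
  · rintro ⟨i, rfl⟩
    rw [node_eq_node S (hg i)]
    exact hγ i

theorem strong_of_sys : IsStrongKurepa (Tr R) := by
  classical
  choose γ hγ using exists_br S
  have hval : ∀ g, F (γ (br S g)) = F g := by
    intro g
    funext k
    obtain ⟨i, hi⟩ := exists_gt' k
    obtain ⟨j, hj⟩ := S.cont g i
    apply hj _ _ k hi
    rw [← node_mem_br S, ← hγ (br S g)]
    exact ⟨j, rfl⟩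
  have hsurj : Function.Surjective (fun b => F (γ b)) := by
    intro y
    obtain ⟨g, hg⟩ := S.surj y
    exact ⟨br S g, by rw [← hg]; exact hval g⟩
  refine ⟨⟨isOmegaOneTree S, ?_⟩, isTree S, fun b => F (γ b), ?_, hsurj⟩
  · have h1 : #(W1 → Bool) ≤ #(Branch (isTree S)) := Cardinal.mk_le_of_surjective hsurj
    refine le_trans ?_ h1
    have h2 : #(W1 → Bool) = 2 ^ ℵ₁ := by
      rw [← mk_W1]; simp
    rw [h2]
    have h3 : (ℵ_ 2 : Cardinal.{0}) = Order.succ ℵ₁ := by
      rw [succ_aleph]; norm_num
    rw [h3, Order.succ_le_iff]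
    exact Cardinal.cantor _
  · rw [@continuous_generateFrom_iff]
    rintro U ⟨i, s, rfl⟩
    have hU : (fun b => F (γ b)) ⁻¹' {g | ∀ j < i, g j = s j} =
        ⋃₀ {V | (∃ t : Tr R, V = {b : Branch (isTree S) | t ∈ b.1}) ∧
          V ⊆ (fun b => F (γ b)) ⁻¹' {g | ∀ j < i, g j = s j}} := by
      ext b
      constructor
      · intro hb
        obtain ⟨j, hj⟩ := S.cont (γ b) i
        refine ⟨{b' | node R j (γ b) ∈ b'.1}, ⟨⟨_, rfl⟩, ?_⟩, ?_⟩
        · intro b' hb' k hk
          have h2 : R j (γ b) (γ b') := by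
            rw [← node_mem_br S, ← hγ b']
            exact hb'
          show F (γ b') k = s k
          rw [hj _ h2 k hk]
          exact hb k hk
        · show node R j (γ b) ∈ b.1
          have h4 : b.1 = (br S (γ b)).1 := congrArg Subtype.val (hγ b)
          rw [h4]
          exact ⟨j, rfl⟩
      · rintro ⟨V, ⟨_, hV⟩, hbV⟩
        exact hV hbV
    rw [hU]
    apply @isOpen_sUnion _ (coneBranch (isTree S))
    rintro V ⟨⟨t, rfl⟩, _⟩
    exact TopologicalSpace.isOpen_generateFrom_of_mem ⟨t, rfl⟩

end sys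

end H68.KT
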